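import Pool.Agent.helper34.EL.Defs

/-!
# Basic facts on the sawtooth function on `ℤ/n` (module xl:SAW)
-/

set_option autoImplicit false

namespace Pool.Agent.helper34.EL

open Finset Pool.Agent.helper34.DH

theorem SAW_intCast (n : ℕ) [NeZero n] (z : ℤ) :
    saw n (z : ZMod n) = if (n : ℤ) ∣ z then 0 else Int.fract ((z : ℚ) / n) - 1 / 2 := by
  unfold saw
  by_cases h : (n : ℤ) ∣ z
  · rw [if_pos h, if_pos ((ZMod.intCast_zmod_eq_zero_iff_dvd z n).2 h)]
  · rw [if_neg h, if_neg (fun h' => h ((ZMod.intCast_zmod_eq_zero_iff_dvd z n).1 h'))]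
    have h1 : (((z : ZMod n).val : ℕ) : ℤ) = z % n := ZMod.val_intCast z
    have h2 : (((z : ZMod n).val : ℕ) : ℚ) = ((z % n : ℤ) : ℚ) := by rw [← h1]; simp
    rw [h2, Int.fract_div_intCast_eq_div_intCast_mod (k := ℚ) (m := z) (n := n)]

theorem SAW_intCast' (n : ℕ) [NeZero n] (z : ℤ) :
    saw n (z : ZMod n) = Int.fract ((z : ℚ) / n) - 1 / 2 + if (n : ℤ) ∣ z then 1 / 2 else 0 := by
  have hn : (n : ℚ) ≠ 0 := by exact_mod_cast NeZero.ne n
  rw [SAW_intCast]
  by_cases h : (n : ℤ) ∣ z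
  · rw [if_pos h, if_pos h]
    obtain ⟨w, rfl⟩ := h
    have : (((n : ℤ) * w : ℤ) : ℚ) / n = (w : ℤ) := by push_cast; field_simp
    rw [this, Int.fract_intCast]; ring
  · rw [if_neg h, if_neg h]; ring

/-- parametrisation of the fibres of multiplication by a divisor -/
theorem SAW_fib {A : Type} [AddCommMonoid A] (n : ℕ) [NeZero n] (q m : ℕ) (h : n = q * m)
    (g : ZMod n → A) (x : ZMod n) :
    ∑ y ∈ univ.filter (fun y : ZMod n => (q : ZMod n) * y = q * x), g y =
      ∑ l ∈ range q, g (x + ((l * m : ℕ) : ZMod n)) := by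
  have hq : 0 < q := Nat.pos_of_ne_zero (fun h0 => NeZero.ne n (by rw [h, h0, zero_mul]))
  have hm : 0 < m := Nat.pos_of_ne_zero (fun h0 => NeZero.ne n (by rw [h, h0, mul_zero]))
  have himg : univ.filter (fun y : ZMod n => (q : ZMod n) * y = q * x) =
      (range q).image (fun l => x + ((l * m : ℕ) : ZMod n)) := by
    ext y
    simp only [mem_filter, mem_univ, true_and, mem_image, mem_range]
    constructor
    · intro hy
      obtain ⟨z, hz⟩ := ZMod.intCast_surjective (y - x)
      have h1 : ((((q : ℤ) * z : ℤ)) : ZMod n) = 0 := by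
        push_cast
        rw [hz, mul_sub, hy, sub_self]
      rw [ZMod.intCast_zmod_eq_zero_iff_dvd, h] at h1
      push_cast at h1
      have h2 : (m : ℤ) ∣ z := Int.dvd_of_mul_dvd_mul_left (by exact_mod_cast hq.ne') h1
      obtain ⟨w, hw⟩ := h2
      refine ⟨(w % q).toNat, ?_, ?_⟩
      · have := Int.emod_lt_of_pos w (show (0 : ℤ) < q by exact_mod_cast hq)
        have := Int.emod_nonneg w (show (q : ℤ) ≠ 0 by exact_mod_cast hq.ne')
        omega
      · have h3 : ((w % q).toNat : ℤ) = w % q :=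
          Int.toNat_of_nonneg (Int.emod_nonneg w (by exact_mod_cast hq.ne'))
        have h4 : (((w % q).toNat * m : ℕ) : ZMod n) = (z : ZMod n) := by
          have : (((((w % q).toNat * m : ℕ) : ℤ)) : ZMod n) = (z : ZMod n) := by
            rw [ZMod.intCast_eq_intCast_iff_dvd_sub]
            push_cast
            rw [h3, hw, h]
            refine ⟨w / q, ?_⟩
            have := Int.emod_add_mul_ediv w q
            push_cast
            linear_combination (-(m : ℤ)) * this
          rw [← this, Int.cast_natCast]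
        rw [h4, hz]; ring
    · rintro ⟨l, -, rfl⟩
      rw [mul_add]
      have : (q : ZMod n) * ((l * m : ℕ) : ZMod n) = 0 := by
        have : ((q * (l * m) : ℕ) : ZMod n) = 0 := by
          rw [ZMod.natCast_eq_zero_iff]
          exact ⟨l, by rw [h]; ring⟩
        rw [← this]; push_cast; ring
      rw [this, add_zero]
  rw [himg, sum_image]
  intro a ha b hb hab
  rw [coe_range, Set.mem_Iio] at ha hb
  have h1 : ((a * m : ℕ) : ZMod n) = ((b * m : ℕ) : ZMod n) := add_left_cancel hab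
  rw [ZMod.natCast_eq_natCast_iff'] at h1
  rw [h, Nat.mul_mod_mul_right, Nat.mul_mod_mul_right, Nat.mod_eq_of_lt ha, Nat.mod_eq_of_lt hb] at h1
  exact Nat.eq_of_mul_eq_mul_right hm h1

theorem saw_zero (n : ℕ) : saw n 0 = 0 := by simp [saw]

theorem saw_neg (n : ℕ) [NeZero n] (x : ZMod n) : saw n (-x) = -saw n x := by
  have hn : (n : ℚ) ≠ 0 := by exact_mod_cast NeZero.ne n
  by_cases hx : x = 0
  · rw [hx, neg_zero, saw_zero, neg_zero]
  · have hx' : -x ≠ 0 := neg_ne_zero.2 hx
    unfold saw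
    rw [if_neg hx, if_neg hx', ZMod.neg_val, if_neg hx, Nat.cast_sub (ZMod.val_lt x).le]
    field_simp
    ring

theorem abs_saw_le (n : ℕ) [NeZero n] (x : ZMod n) : |saw n x| ≤ 1 / 2 := by
  have hn : (0 : ℚ) < n := by exact_mod_cast Nat.pos_of_ne_zero (NeZero.ne n)
  unfold saw
  split_ifs with h
  · norm_num
  · have h1 : (x.val : ℚ) / n ≤ 1 := by
      rw [div_le_one hn]; exact_mod_cast (ZMod.val_lt x).le
    have h2 : 0 ≤ (x.val : ℚ) / n := by positivity
    rw [abs_le]; constructor <;> linarith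

theorem saw_dist (n : ℕ) [NeZero n] (q : ℕ) (hq : q ∣ n) : DistAt n q (saw n) := by
  intro x
  obtain ⟨m, hm⟩ := hq
  have hn0 : n ≠ 0 := NeZero.ne n
  have hq : 0 < q := Nat.pos_of_ne_zero (fun h0 => hn0 (by rw [hm, h0, zero_mul]))
  have hm0 : 0 < m := Nat.pos_of_ne_zero (fun h0 => hn0 (by rw [hm, h0, mul_zero]))
  have hnQ : (n : ℚ) = q * m := by exact_mod_cast hm
  have hqQ : (q : ℚ) ≠ 0 := by exact_mod_cast hq.ne'
  have hmQ : (m : ℚ) ≠ 0 := by exact_mod_cast hm0.ne'
  rw [SAW_fib n q m hm]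
  obtain ⟨z, rfl⟩ := ZMod.intCast_surjective x
  have e1 : ∀ l ∈ range q, saw n ((z : ZMod n) + ((l * m : ℕ) : ZMod n)) =
      Int.fract ((z : ℚ) / n + ((1 : ℤ) : ℚ) * ((l : ℚ) / q)) - 1 / 2 +
        if (n : ℤ) ∣ z + l * m then 1 / 2 else 0 := by
    intro l _
    have : (z : ZMod n) + ((l * m : ℕ) : ZMod n) = ((z + l * m : ℤ) : ZMod n) := by push_cast; ring
    rw [this, SAW_intCast']
    congr 3
    rw [hnQ]; push_cast; field_simp
  rw [sum_congr rfl e1, sum_add_distrib, sum_sub_distrib,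
    hermite q hq 1 (isCoprime_one_left) ((z : ℚ) / n)]
  have e2 : (q : ZMod n) * (z : ZMod n) = ((q * z : ℤ) : ZMod n) := by push_cast; ring
  rw [e2, SAW_intCast']
  have e3 : (((q : ℤ) * z : ℤ) : ℚ) / n = (q : ℚ) * ((z : ℚ) / n) := by push_cast; ring
  rw [e3]
  have e4 : (∑ l ∈ range q, if (n : ℤ) ∣ z + l * m then (1 / 2 : ℚ) else 0) =
      if (n : ℤ) ∣ q * z then 1 / 2 else 0 := by
    by_cases h : (n : ℤ) ∣ q * z
    · rw [if_pos h]
      have h1 : (m : ℤ) ∣ z := by
        rw [hm] at h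
        push_cast at h
        exact Int.dvd_of_mul_dvd_mul_left (by exact_mod_cast hq.ne') h
      obtain ⟨w, rfl⟩ := h1
      have hq' : (q : ℤ) ≠ 0 := by exact_mod_cast hq.ne'
      have hmod0 := Int.emod_nonneg (-w) hq'
      have hmod1 := Int.emod_lt_of_pos (-w) (show (0 : ℤ) < q by exact_mod_cast hq)
      rw [sum_eq_single ((-w) % q).toNat]
      · rw [if_pos]
        rw [Int.toNat_of_nonneg hmod0, hm]
        refine ⟨-((-w) / q), ?_⟩
        have := Int.emod_add_mul_ediv (-w) q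
        push_cast
        linear_combination (m : ℤ) * this
      · intro b hb hne
        rw [mem_range] at hb
        rw [if_neg]
        intro hd
        apply hne
        have h2 : (q : ℤ) ∣ w + b := by
          rw [hm] at hd
          push_cast at hd
          have : ((q : ℤ) * m) ∣ (w + b) * m := by
            convert hd using 1; ring
          exact Int.dvd_of_mul_dvd_mul_right (by exact_mod_cast hm0.ne') this
        have h3 : (-w) % q = b := by
          have h4 : (-w) % q = (b : ℤ) % q := by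
            apply Int.ModEq.eq
            rw [Int.modEq_iff_dvd]
            have : (b : ℤ) - -w = w + b := by ring
            rw [this]; exact h2
          rw [h4, Int.emod_eq_of_lt (by omega) (by omega)]
        rw [h3]; simp
      · intro h0
        exfalso
        apply h0
        rw [mem_range]
        omega
    · rw [if_neg h]
      apply sum_eq_zero
      intro l _
      rw [if_neg]
      intro hd
      apply h
      have : (n : ℤ) ∣ q * (z + l * m) := Dvd.dvd.mul_left hd _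
      have h5 : (q : ℤ) * (z + l * m) = q * z + n * l := by rw [hm]; push_cast; ring
      rw [h5] at this
      exact (Int.dvd_add_left ⟨l, rfl⟩).1 this
  rw [e4]
  simp only [sum_const, card_range, nsmul_eq_mul]
  ring

theorem saw_int (n : ℕ) [NeZero n] (c : ℤ) (hc : Odd c) (hcn : IsCoprime c (n : ℤ)) (x : ZMod n) :
    ∃ z : ℤ, saw n ((c : ZMod n) * x) - c * saw n x = z := by
  obtain ⟨v, rfl⟩ := ZMod.intCast_surjective x
  have e1 : (c : ZMod n) * (v : ZMod n) = ((c * v : ℤ) : ZMod n) := by push_cast; ring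
  rw [e1, SAW_intCast, SAW_intCast]
  by_cases h : (n : ℤ) ∣ v
  · rw [if_pos h, if_pos (Dvd.dvd.mul_left h c)]
    exact ⟨0, by simp⟩
  · have h' : ¬ (n : ℤ) ∣ c * v := fun hd => h (hcn.symm.dvd_of_dvd_mul_left hd)
    rw [if_neg h, if_neg h']
    obtain ⟨k, hk⟩ := hc
    refine ⟨-⌊((c * v : ℤ) : ℚ) / n⌋ + c * ⌊(v : ℚ) / n⌋ + k, ?_⟩
    have f1 := Int.self_sub_floor (((c * v : ℤ) : ℚ) / n)
    have f2 := Int.self_sub_floor ((v : ℚ) / n)
    rw [← f1, ← f2]
    have hcq : (c : ℚ) = 2 * k + 1 := by rw [hk]; push_cast; ring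
    push_cast
    linear_combination (1 / 2 : ℚ) * hcq

theorem saw_level (n m : ℕ) [NeZero n] (h : m ∣ n) (y : ℤ) :
    saw n (((n / m : ℕ) : ZMod n) * (y : ZMod n)) = saw m (y : ZMod m) := by
  obtain ⟨k, hk⟩ := h
  have hn0 : n ≠ 0 := NeZero.ne n
  have hm0 : m ≠ 0 := fun h0 => hn0 (by rw [hk, h0, zero_mul])
  have hk0 : k ≠ 0 := fun h0 => hn0 (by rw [hk, h0, mul_zero])
  have : NeZero m := ⟨hm0⟩
  have e0 : n / m = k := by rw [hk]; exact Nat.mul_div_cancel_left k (Nat.pos_of_ne_zero hm0)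
  rw [e0]
  have e1 : ((k : ℕ) : ZMod n) * (y : ZMod n) = ((k * y : ℤ) : ZMod n) := by push_cast; ring
  rw [e1, SAW_intCast, SAW_intCast]
  have hmQ : (m : ℚ) ≠ 0 := by exact_mod_cast hm0
  have hkQ : (k : ℚ) ≠ 0 := by exact_mod_cast hk0
  have e2 : (((k : ℤ) * y : ℤ) : ℚ) / n = (y : ℚ) / m := by
    rw [hk]; push_cast; field_simp
  have e3 : (n : ℤ) ∣ k * y ↔ (m : ℤ) ∣ y := by
    rw [hk]
    push_cast
    constructor
    · intro hd
      have : (k : ℤ) * m ∣ k * y := by convert hd using 1; ring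
      exact Int.dvd_of_mul_dvd_mul_left (by exact_mod_cast hk0) this
    · rintro ⟨w, rfl⟩
      exact ⟨w, by ring⟩
  rw [e2]
  by_cases hd : (m : ℤ) ∣ y
  · rw [if_pos hd, if_pos (e3.2 hd)]
  · rw [if_neg hd, if_neg (fun h' => hd (e3.1 h'))]

end Pool.Agent.helper34.EL
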