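import Mathlib

/-!
# A bounded almost linear periodic function vanishes at one (module xl:SML)
-/

set_option autoImplicit false

namespace Pool.Agent.helper34.EL

open Finset

/-- a residue prime to `r` in `[r/6, r/2]` -/
theorem SML_residue (r : ℕ) (hr : 7 ≤ r) : ∃ c : ℕ, Nat.Coprime c r ∧ r ≤ 6 * c ∧ 2 * c ≤ r := by
  rcases Nat.even_or_odd' r with ⟨s, hs | hs⟩
  · rcases Nat.even_or_odd' s with ⟨t, ht | ht⟩
    · refine ⟨s - 1, ?_, by omega, by omega⟩
      have h1 : Nat.Coprime (s - 1) s := by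
        have := (Nat.coprime_self_add_right (m := s - 1) (n := 1)).2 (Nat.coprime_one_right _)
        rwa [Nat.sub_add_cancel (by omega)] at this
      have h2 : Nat.Coprime (s - 1) 2 := by
        rw [Nat.coprime_comm, Nat.coprime_two_left]
        exact ⟨t - 1, by omega⟩
      rw [hs]
      exact Nat.Coprime.mul_right h2 h1
    · refine ⟨s - 2, ?_, by omega, by omega⟩
      have h2 : Nat.Coprime (s - 2) 2 := by
        rw [Nat.coprime_comm, Nat.coprime_two_left]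
        exact ⟨t - 1, by omega⟩
      have h1 : Nat.Coprime (s - 2) s := by
        have := (Nat.coprime_self_add_right (m := s - 2) (n := 2)).2 h2
        rwa [Nat.sub_add_cancel (by omega)] at this
      rw [hs]
      exact Nat.Coprime.mul_right h2 h1
  · refine ⟨s, ?_, by omega, by omega⟩
    rw [hs, Nat.coprime_mul_right_add_right]
    exact Nat.coprime_one_right _

theorem small_zero (n : ℕ) (hn : 0 < n) (Ψ : ℤ → ℚ) (hper : ∀ c d : ℤ, Ψ (c + n * d) = Ψ c)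
    (hint : ∀ c : ℤ, Odd c → IsCoprime c (n : ℤ) → ∃ z : ℤ, Ψ c - c * Ψ 1 = z)
    (hsmall : ∀ c : ℤ, IsCoprime c (n : ℤ) → |Ψ c| < 1 / 6) : Ψ 1 = 0 := by
  by_contra hne
  set ψ := Ψ 1 with hψ
  -- the denominator divides `2 n`
  have hodd : Odd (1 + (n : ℤ) * 2) := ⟨n, by ring⟩
  have hcop : IsCoprime (1 + (n : ℤ) * 2) (n : ℤ) := ⟨1, -2, by ring⟩
  obtain ⟨z, hz⟩ := hint _ hodd hcop
  rw [hper 1 2] at hz
  have hden : ((2 * n : ℤ) : ℚ) * ψ = ((-z : ℤ) : ℚ) := by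
    push_cast at hz ⊢
    linear_combination (-1 : ℚ) * hz
  have hr : (ψ.den : ℤ) ∣ 2 * n := by
    have h1 : ((2 * n : ℤ) : ℚ) * ψ.num = ((-z * ψ.den : ℤ) : ℚ) := by
      have h2 : (ψ : ℚ) * ψ.den = ψ.num := Rat.mul_den_eq_num ψ
      rw [← h2]
      push_cast at hden ⊢
      linear_combination (ψ.den : ℚ) * hden
    have h3 : (2 * n : ℤ) * ψ.num = -z * ψ.den := by exact_mod_cast h1
    have h4 : (ψ.den : ℤ) ∣ (2 * n : ℤ) * ψ.num := ⟨-z, by rw [h3]; ring⟩
    have h5 : IsCoprime (ψ.den : ℤ) ψ.num := by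
      rw [Int.isCoprime_iff_gcd_eq_one, Int.gcd_comm]
      exact ψ.reduced
    exact h5.dvd_of_dvd_mul_right h4
  have hr' : ψ.den ∣ 2 * n := by exact_mod_cast hr
  have hdpos : 0 < ψ.den := ψ.den_pos
  have hdQ : (0 : ℚ) < ψ.den := by exact_mod_cast hdpos
  -- the denominator is at least `7`
  have hge : 7 ≤ ψ.den := by
    have h1 := hsmall 1 isCoprime_one_left
    have h2 : |ψ| * ψ.den = |(ψ.num : ℚ)| := by
      rw [← Rat.mul_den_eq_num ψ, abs_mul, abs_of_pos hdQ]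
    have h3 : (1 : ℚ) ≤ |(ψ.num : ℚ)| := by
      have : ψ.num ≠ 0 := fun h0 => hne (Rat.num_eq_zero.1 h0)
      have h4 : 1 ≤ |ψ.num| := Int.one_le_abs this
      exact_mod_cast h4
    have h5 : (6 : ℚ) < ψ.den := by
      rw [← h2] at h3
      nlinarith
    have h6 : 6 < ψ.den := by exact_mod_cast h5
    omega
  obtain ⟨c₀, hc0, hc1, hc2⟩ := SML_residue ψ.den hge
  -- a unit `c` with `c * num = c₀` modulo the denominator
  have : NeZero (2 * n) := ⟨by omega⟩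
  have : NeZero ψ.den := ⟨hdpos.ne'⟩
  have hnu : IsUnit ((ψ.num : ℤ) : ZMod ψ.den) := by
    rw [ZMod.coe_int_isUnit_iff_isCoprime, Int.isCoprime_iff_gcd_eq_one, Int.gcd_comm]
    exact ψ.reduced
  have hcu : IsUnit ((c₀ : ℕ) : ZMod ψ.den) := (ZMod.isUnit_iff_coprime _ _).2 hc0
  obtain ⟨u, hu⟩ := ZMod.unitsMap_surjective hr' (hcu.unit * hnu.unit⁻¹)
  set c : ℤ := ((u : ZMod (2 * n)).val : ℤ) with hc
  have hccop : IsCoprime c ((2 * n : ℕ) : ℤ) := by
    rw [hc, Nat.isCoprime_iff_coprime]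
    exact ZMod.val_coe_unit_coprime u
  have hccop' : IsCoprime c (n : ℤ) := by
    push_cast at hccop
    exact hccop.of_mul_right_right
  have hcodd : Odd c := by
    push_cast at hccop
    have h2 : IsCoprime c 2 := hccop.of_mul_right_left
    rcases Int.even_or_odd c with he | ho
    · exfalso
      obtain ⟨d, hd⟩ := he
      obtain ⟨a, b, hab⟩ := h2
      rw [hd] at hab
      have h3 : 2 * (a * d + b) = 1 := by linarith
      omega
    · exact ho
  have hcmod : ((c : ℤ) : ZMod ψ.den) * ((ψ.num : ℤ) : ZMod ψ.den) = ((c₀ : ℕ) : ZMod ψ.den) := by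
    have h1 : ((ZMod.unitsMap hr' u : (ZMod ψ.den)ˣ) : ZMod ψ.den) = ((c : ℤ) : ZMod ψ.den) := by
      rw [ZMod.unitsMap_def, Units.coe_map]
      change ZMod.castHom hr' (ZMod ψ.den) (u : ZMod (2 * n)) = _
      rw [ZMod.castHom_apply, hc, ZMod.cast_eq_val]
      push_cast
      rfl
    rw [← h1, hu]
    change ((hcu.unit * hnu.unit⁻¹ : (ZMod ψ.den)ˣ) : ZMod ψ.den) *
      ((hnu.unit : (ZMod ψ.den)ˣ) : ZMod ψ.den) = _
    rw [← Units.val_mul, inv_mul_cancel_right]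
    rfl
  have hdvd : (ψ.den : ℤ) ∣ c * ψ.num - c₀ := by
    rw [← ZMod.intCast_zmod_eq_zero_iff_dvd]
    push_cast
    rw [hcmod, sub_self]
  obtain ⟨k, hk⟩ := hdvd
  obtain ⟨z', hz'⟩ := hint c hcodd hccop'
  have hval : Ψ c = ((k + z' : ℤ) : ℚ) + (c₀ : ℚ) / ψ.den := by
    have h1 : (ψ : ℚ) * ψ.den = ψ.num := Rat.mul_den_eq_num ψ
    have h2 : (c : ℚ) * ψ.num - c₀ = ψ.den * k := by exact_mod_cast hk
    have h3 : (c : ℚ) * ψ = k + (c₀ : ℚ) / ψ.den := by
      field_simp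
      linear_combination (c : ℚ) * h1 + h2
    push_cast
    linear_combination hz' + h3
  have hs := hsmall c hccop'
  rw [hval, abs_lt] at hs
  have g1 : (1 : ℚ) / 6 ≤ (c₀ : ℚ) / ψ.den := by
    rw [div_le_div_iff₀ (by norm_num) hdQ]
    have : (ψ.den : ℚ) ≤ 6 * c₀ := by exact_mod_cast hc1
    linarith
  have g2 : (c₀ : ℚ) / ψ.den ≤ 1 / 2 := by
    rw [div_le_div_iff₀ hdQ (by norm_num)]
    have : 2 * (c₀ : ℚ) ≤ ψ.den := by exact_mod_cast hc2
    linarith
  have g3 : ((k + z' : ℤ) : ℚ) < 0 := by linarith [hs.2]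
  have g4 : (-1 : ℚ) < ((k + z' : ℤ) : ℚ) := by linarith [hs.1]
  have g5 : (k + z' : ℤ) < 0 := by exact_mod_cast g3
  have g6 : (-1 : ℤ) < (k + z' : ℤ) := by exact_mod_cast g4
  omega

end Pool.Agent.helper34.EL
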