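import Pool.Agent.helper96.XL.GAP

/-!
# Averaging over the units congruent to one modulo the prime-to-`p` part (module xl:GA0)
-/

set_option autoImplicit false

namespace Pool.Agent.helper34.EL

open Finset

/-- the sum of the sawtooth values over a coset of the group generated by `b`, without the
translates by `i₀ + p l` -/
theorem GA0_abs (n p f : ℕ) [NeZero n] (hp : p.Prime) (x b : ZMod n)
    (hb : ((p ^ (f + 1) : ℕ) : ZMod n) * b = 0) (hb0 : b ≠ 0) (i₀ : ℕ) (hi₀ : i₀ ∈ range p) :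
    |∑ l ∈ range (p ^ f), ∑ i ∈ (range p).erase i₀, saw n (x + ((l * p + i : ℕ) : ZMod n) * b)| ≤
      (p : ℚ) ^ f := by
  have hpQ : (0 : ℚ) < p := by exact_mod_cast hp.pos
  have hpfQ : (0 : ℚ) < (p : ℚ) ^ f := by positivity
  have hr : addOrderOf b ∣ p ^ (f + 1) := by
    apply addOrderOf_dvd_of_nsmul_eq_zero
    rw [nsmul_eq_mul]; exact hb
  have hrp : p ∣ addOrderOf b := by
    obtain ⟨e, he, hre⟩ := (Nat.dvd_prime_pow hp).1 hr
    rcases e with _ | e
    · exfalso
      rw [pow_zero, AddMonoid.addOrderOf_eq_one_iff] at hre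
      exact hb0 hre
    · rw [hre]; exact dvd_pow_self p (Nat.succ_ne_zero e)
  have hpos : 0 < addOrderOf b := addOrderOf_pos b
  have hple : (p : ℚ) ≤ addOrderOf b := by exact_mod_cast Nat.le_of_dvd hpos hrp
  -- the order of `p b` divides `p ^ f`
  have hr2 : addOrderOf ((p : ZMod n) * b) ∣ p ^ f := by
    apply addOrderOf_dvd_of_nsmul_eq_zero
    rw [nsmul_eq_mul]
    push_cast at hb ⊢
    rw [← hb]; ring
  have hsplit : ∑ l ∈ range (p ^ f), ∑ i ∈ (range p).erase i₀,
      saw n (x + ((l * p + i : ℕ) : ZMod n) * b) =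
      ∑ l ∈ range (p ^ f * p), saw n (x + (l : ZMod n) * b) -
        ∑ l ∈ range (p ^ f), saw n ((x + (i₀ : ZMod n) * b) + (l : ZMod n) * ((p : ZMod n) * b)) := by
    rw [GAP_range_mul, ← sum_sub_distrib]
    apply sum_congr rfl
    intro l _
    rw [← add_sum_erase (range p) _ hi₀]
    have : x + ((l * p + i₀ : ℕ) : ZMod n) * b =
        (x + (i₀ : ZMod n) * b) + (l : ZMod n) * ((p : ZMod n) * b) := by
      push_cast; ring
    rw [this]; ring
  rw [hsplit]
  have h1 := GAP_abs n x b (p ^ f * p) (by rw [← pow_succ]; exact hr)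
  have h2 := GAP_abs n (x + (i₀ : ZMod n) * b) ((p : ZMod n) * b) (p ^ f) hr2
  have h3 : (((p ^ f * p : ℕ) : ℚ)) / addOrderOf b ≤ (p : ℚ) ^ f := by
    rw [div_le_iff₀ (by exact_mod_cast hpos)]
    push_cast
    exact mul_le_mul_of_nonneg_left hple hpfQ.le
  have h4 : (((p ^ f : ℕ) : ℚ)) / addOrderOf ((p : ZMod n) * b) ≤ (p : ℚ) ^ f := by
    have hpos2 : 0 < addOrderOf ((p : ZMod n) * b) := addOrderOf_pos _
    rw [div_le_iff₀ (by exact_mod_cast hpos2)]
    push_cast
    have : (1 : ℚ) ≤ addOrderOf ((p : ZMod n) * b) := by exact_mod_cast hpos2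
    nlinarith
  refine (abs_sub _ _).trans ?_
  linarith

theorem gap0 (n p f n' : ℕ) [NeZero n] (hp : p.Prime) (hn : n = p ^ f * n')
    (hpn : ¬ p ∣ n') {ι : Type} [Fintype ι] [DecidableEq ι] (a : ι → ZMod n) (ha : Rel n a)
    (hk : 6 * Fintype.card ι < p - 1) :
    ∀ u : (ZMod n)ˣ, ∑ i ∈ univ.filter (fun i => (n' : ZMod n) * a i ≠ 0),
      saw n ((u : ZMod n) * a i) = 0 := by
  apply GAP_small
  intro t
  set T := univ.filter (fun i => (n' : ZMod n) * a i ≠ 0) with hT
  rcases f with _ | f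
  · -- no power of `p`: the filter is empty
    have hTe : T = ∅ := by
      rw [hT, filter_eq_empty_iff]
      intro i _
      rw [not_not]
      have : ((n' : ℕ) : ZMod n) = 0 := by
        rw [ZMod.natCast_eq_zero_iff, hn]; simp
      rw [this, zero_mul]
    rw [hTe, sum_empty, abs_zero]; norm_num
  have hpQ : (0 : ℚ) < p := by exact_mod_cast hp.pos
  have hp1 : (0 : ℚ) < (p : ℚ) - 1 := by
    have : (1 : ℚ) < p := by exact_mod_cast hp.one_lt
    linarith
  have hpfQ : (0 : ℚ) < (p : ℚ) ^ f := by positivity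
  -- the residue excluded
  obtain ⟨i₀, hi₀, hi₀'⟩ : ∃ i₀ ∈ range p, ∀ i ∈ range p, i ≠ i₀ → ¬ p ∣ 1 + n' * i := by
    have : Fact p.Prime := ⟨hp⟩
    have hne : (n' : ZMod p) ≠ 0 := by
      rw [Ne, ZMod.natCast_eq_zero_iff]; exact hpn
    refine ⟨(-(n' : ZMod p)⁻¹).val, mem_range.2 (ZMod.val_lt _), ?_⟩
    intro i hi hne' hd
    apply hne'
    rw [← ZMod.natCast_eq_zero_iff] at hd
    push_cast at hd
    have h1 : (i : ZMod p) = -(n' : ZMod p)⁻¹ := by
      field_simp
      linear_combination hd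
    rw [← h1, ZMod.val_natCast, Nat.mod_eq_of_lt (mem_range.1 hi)]
  have hcop : ∀ l : ℕ, ∀ i ∈ (range p).erase i₀, Nat.Coprime (1 + n' * (l * p + i)) n := by
    intro l i hi
    rw [mem_erase] at hi
    rw [hn]
    apply Nat.Coprime.mul_right
    · apply Nat.Coprime.pow_right
      rw [Nat.coprime_comm, hp.coprime_iff_not_dvd]
      intro hd
      apply hi₀' i hi.2 hi.1
      have h1 : 1 + n' * (l * p + i) = (1 + n' * i) + p * (n' * l) := by ring
      rw [h1] at hd
      exact (Nat.dvd_add_left (Dvd.intro _ rfl)).1 hd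
    · have h1 : 1 + n' * (l * p + i) = 1 + (l * p + i) * n' := by ring
      rw [h1, Nat.coprime_add_mul_right_left]
      exact Nat.coprime_one_left _
  have key : ∀ l ∈ range (p ^ f), ∀ i ∈ (range p).erase i₀,
      ∑ k ∈ T, saw n ((t : ZMod n) * a k + ((l * p + i : ℕ) : ZMod n) *
      ((n' : ZMod n) * ((t : ZMod n) * a k))) = ∑ k ∈ T, saw n ((t : ZMod n) * a k) := by
    intro l _ i hi
    rw [← GAP_inv n (fun k => (n' : ZMod n) * a k ≠ 0) a ha t
      (ZMod.unitOfCoprime _ (hcop l i hi))]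
    · apply sum_congr rfl
      intro k _
      congr 1
      rw [Units.val_mul, ZMod.coe_unitOfCoprime]
      push_cast
      ring
    · intro k hk'
      rw [not_not] at hk'
      rw [ZMod.coe_unitOfCoprime]
      push_cast
      linear_combination ((l : ZMod n) * p + i) * hk'
  have hcard : ((range p).erase i₀).card = p - 1 := by
    rw [card_erase_of_mem hi₀, card_range]
  have hsum : ((p : ℚ) ^ f * (p - 1)) * ∑ k ∈ T, saw n ((t : ZMod n) * a k) =
      ∑ k ∈ T, ∑ l ∈ range (p ^ f), ∑ i ∈ (range p).erase i₀,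
        saw n ((t : ZMod n) * a k + ((l * p + i : ℕ) : ZMod n) *
        ((n' : ZMod n) * ((t : ZMod n) * a k))) := by
    rw [sum_comm]
    have h1 : ∀ l ∈ range (p ^ f), ∑ k ∈ T, ∑ i ∈ (range p).erase i₀,
        saw n ((t : ZMod n) * a k + ((l * p + i : ℕ) : ZMod n) *
        ((n' : ZMod n) * ((t : ZMod n) * a k))) =
          ((p : ℚ) - 1) * ∑ k ∈ T, saw n ((t : ZMod n) * a k) := by
      intro l hl
      rw [sum_comm, sum_congr rfl (key l hl), sum_const, hcard, nsmul_eq_mul,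
        Nat.cast_sub hp.one_lt.le]
      push_cast; ring
    rw [sum_congr rfl h1, sum_const, card_range, nsmul_eq_mul]
    push_cast; ring
  have hbound : |((p : ℚ) ^ f * (p - 1)) * ∑ k ∈ T, saw n ((t : ZMod n) * a k)| ≤
      ∑ k ∈ T, (p : ℚ) ^ f := by
    rw [hsum]
    refine (abs_sum_le_sum_abs _ _).trans (sum_le_sum fun k hk' => ?_)
    rw [hT, mem_filter] at hk'
    apply GA0_abs n p f hp _ _ _ _ i₀ hi₀
    · have h1 : ((p ^ (f + 1) : ℕ) : ZMod n) * (n' : ZMod n) = 0 := by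
        rw [← Nat.cast_mul, ← hn, ZMod.natCast_self]
      rw [← mul_assoc, h1, zero_mul]
    · intro h0
      apply hk'.2
      have h1 : (t : ZMod n) * ((n' : ZMod n) * a k) = 0 := by rw [← h0]; ring
      exact (Units.mul_right_eq_zero t).1 h1
  have hTc : (T.card : ℚ) ≤ Fintype.card ι := by exact_mod_cast card_le_univ T
  have hk' : 6 * (Fintype.card ι : ℚ) < p - 1 := by
    have h1 : 6 * Fintype.card ι + 1 < p := by omega
    have h2 : ((6 * Fintype.card ι + 1 : ℕ) : ℚ) < p := by exact_mod_cast h1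
    push_cast at h2
    linarith
  have hpos : (0 : ℚ) < (p : ℚ) ^ f * (p - 1) := mul_pos hpfQ hp1
  rw [sum_const, nsmul_eq_mul, abs_mul, abs_of_pos hpos] at hbound
  by_contra hcon
  rw [not_lt] at hcon
  have h5 : (p : ℚ) ^ f * (p - 1) * (1 / 6) ≤ (T.card : ℚ) * (p : ℚ) ^ f :=
    (mul_le_mul_of_nonneg_left hcon hpos.le).trans hbound
  have h6 : (p : ℚ) ^ f * ((p - 1) * (1 / 6)) ≤ (p : ℚ) ^ f * T.card := by linarith
  have h7 := le_of_mul_le_mul_left h6 hpfQ
  linarith

end Pool.Agent.helper34.EL
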