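import Pool.Agent.helper96.XL.SAW
import Pool.Agent.helper96.XL.SML

/-!
# Averaging over the units congruent to one (module xl:GAP)
-/

set_option autoImplicit false

namespace Pool.Agent.helper34.EL

open Finset

/-- a coset of the cyclic group generated by `b` is a fibre of multiplication by its order -/
theorem GAP_cyc (n : ℕ) [NeZero n] (x b : ZMod n) :
    ∑ j ∈ range (addOrderOf b), saw n (x + (j : ZMod n) * b) =
      saw n ((addOrderOf b : ZMod n) * x) := by
  set r := addOrderOf b with hr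
  have hrn : r ∣ n := by
    have := addOrderOf_dvd_card (x := b)
    rwa [ZMod.card] at this
  rw [← saw_dist n r hrn x]
  have hinj : Set.InjOn (fun j : ℕ => x + (j : ZMod n) * b) (range r : Set ℕ) := by
    intro i hi j hj hij
    rw [coe_range] at hi hj
    have h1 : i • b = j • b := by
      rw [nsmul_eq_mul, nsmul_eq_mul]
      exact add_left_cancel hij
    exact nsmul_injOn_Iio_addOrderOf hi hj h1
  rw [← sum_image hinj (f := fun y => saw n y)]
  apply sum_congr _ (fun _ _ => rfl)
  apply eq_of_subset_of_card_le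
  · intro y hy
    rw [mem_image] at hy
    obtain ⟨j, -, rfl⟩ := hy
    rw [mem_filter]
    refine ⟨mem_univ _, ?_⟩
    have h0 : (r : ZMod n) * b = 0 := by
      rw [← nsmul_eq_mul, hr]; exact addOrderOf_nsmul_eq_zero b
    linear_combination (j : ZMod n) * h0
  · rw [card_image_of_injOn hinj, card_range]
    obtain ⟨m, hm⟩ := hrn
    have := SAW_fib n r m hm (fun _ => 1) x
    rw [sum_const, sum_const, card_range] at this
    simp only [smul_eq_mul, mul_one] at this
    exact this.le

theorem GAP_range_mul {A : Type} [AddCommMonoid A] (k r : ℕ) (g : ℕ → A) :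
    ∑ l ∈ range (k * r), g l = ∑ i ∈ range k, ∑ j ∈ range r, g (i * r + j) := by
  induction k with
  | zero => simp
  | succ k ih => rw [Nat.succ_mul, sum_range_add, ih, sum_range_succ]

theorem GAP_range (n : ℕ) [NeZero n] (x b : ZMod n) (k : ℕ) :
    ∑ l ∈ range (k * addOrderOf b), saw n (x + (l : ZMod n) * b) =
      k * saw n ((addOrderOf b : ZMod n) * x) := by
  rw [GAP_range_mul]
  have h0 : (addOrderOf b : ZMod n) * b = 0 := by
    rw [← nsmul_eq_mul]; exact addOrderOf_nsmul_eq_zero b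
  have h1 : ∀ i ∈ range k, ∑ j ∈ range (addOrderOf b),
      saw n (x + ((i * addOrderOf b + j : ℕ) : ZMod n) * b) =
        saw n ((addOrderOf b : ZMod n) * x) := by
    intro i _
    rw [← GAP_cyc n x b]
    apply sum_congr rfl
    intro j _
    congr 1
    push_cast
    linear_combination (i : ZMod n) * h0
  rw [sum_congr rfl h1, sum_const, card_range, nsmul_eq_mul]

theorem GAP_abs (n : ℕ) [NeZero n] (x b : ZMod n) (M : ℕ) (hM : addOrderOf b ∣ M) :
    |∑ l ∈ range M, saw n (x + (l : ZMod n) * b)| ≤ (M : ℚ) / addOrderOf b / 2 := by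
  obtain ⟨k, rfl⟩ := hM
  have hpos : 0 < addOrderOf b := addOrderOf_pos b
  have hposQ : (0 : ℚ) < addOrderOf b := by exact_mod_cast hpos
  rw [mul_comm (addOrderOf b) k, GAP_range, abs_mul, Nat.abs_cast]
  have h1 := abs_saw_le n ((addOrderOf b : ZMod n) * x)
  have h2 : (((k * addOrderOf b : ℕ) : ℚ)) / addOrderOf b = k := by
    push_cast; field_simp
  rw [h2]
  have hk : (0 : ℚ) ≤ k := Nat.cast_nonneg k
  nlinarith

/-- if the sum over `T` of the sawtooth values is small at all units, it vanishes -/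
theorem GAP_small (n : ℕ) [NeZero n] {ι : Type} (T : Finset ι) (a : ι → ZMod n)
    (h : ∀ u : (ZMod n)ˣ, |∑ i ∈ T, saw n ((u : ZMod n) * a i)| < 1 / 6) (u : (ZMod n)ˣ) :
    ∑ i ∈ T, saw n ((u : ZMod n) * a i) = 0 := by
  have key := small_zero n (Nat.pos_of_ne_zero (NeZero.ne n))
    (fun c => ∑ i ∈ T, saw n ((c : ZMod n) * ((u : ZMod n) * a i))) ?_ ?_ ?_
  · simpa using key
  · intro c d
    simp
  · intro c hc hcn
    choose z hz using fun i => saw_int n c hc hcn ((u : ZMod n) * a i)
    refine ⟨∑ i ∈ T, z i, ?_⟩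
    push_cast
    rw [mul_sum, ← sum_sub_distrib]
    apply sum_congr rfl
    intro i _
    rw [one_mul]
    exact hz i
  · intro c hc
    have hu : IsUnit ((c : ℤ) : ZMod n) := by
      rw [ZMod.coe_int_isUnit_iff_isCoprime]
      exact hc.symm
    have := h (hu.unit * u)
    have e : ∀ i ∈ T, saw n (((hu.unit * u : (ZMod n)ˣ) : ZMod n) * a i) =
        saw n ((c : ZMod n) * ((u : ZMod n) * a i)) := by
      intro i _
      rw [Units.val_mul, mul_assoc]
      rfl
    rwa [sum_congr rfl e] at this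

/-- a unit acting trivially on the entries outside `T` does not change the sum over `T` -/
theorem GAP_inv (n : ℕ) [NeZero n] {ι : Type} [Fintype ι] [DecidableEq ι] (P : ι → Prop)
    [DecidablePred P] (a : ι → ZMod n) (ha : Rel n a) (t v : (ZMod n)ˣ)
    (hv : ∀ i, ¬ P i → (v : ZMod n) * a i = a i) :
    ∑ i ∈ univ.filter P, saw n (((v * t : (ZMod n)ˣ) : ZMod n) * a i) =
      ∑ i ∈ univ.filter P, saw n ((t : ZMod n) * a i) := by
  have h1 := ha (v * t)
  have h2 := ha t
  rw [← sum_filter_add_sum_filter_not univ P] at h1 h2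
  have h3 : ∑ i ∈ univ.filter (fun i => ¬ P i), saw n (((v * t : (ZMod n)ˣ) : ZMod n) * a i) =
      ∑ i ∈ univ.filter (fun i => ¬ P i), saw n ((t : ZMod n) * a i) := by
    apply sum_congr rfl
    intro i hi
    rw [mem_filter] at hi
    congr 1
    rw [Units.val_mul]
    linear_combination (t : ZMod n) * hv i hi.2
  linarith

theorem gap (n p f n' j : ℕ) [NeZero n] (hp : p.Prime) (hj : 0 < j) (hn : n = p ^ f * n')
    (hpn : ¬ p ∣ n') {ι : Type} [Fintype ι] [DecidableEq ι] (a : ι → ZMod n) (ha : Rel n a)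
    (hw : ∑ i ∈ univ.filter (fun i => ((p ^ j * n' : ℕ) : ZMod n) * a i ≠ 0),
      (1 : ℚ) / addOrderOf (((p ^ j * n' : ℕ) : ZMod n) * a i) < 1 / 3) :
    ∀ u : (ZMod n)ˣ, ∑ i ∈ univ.filter (fun i => ((p ^ j * n' : ℕ) : ZMod n) * a i ≠ 0),
      saw n ((u : ZMod n) * a i) = 0 := by
  apply GAP_small
  intro t
  set T := univ.filter (fun i => ((p ^ j * n' : ℕ) : ZMod n) * a i ≠ 0) with hT
  have hn0 : 0 < n := Nat.pos_of_ne_zero (NeZero.ne n)
  have hnQ : (0 : ℚ) < n := by exact_mod_cast hn0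
  -- the units `1 + p ^ j n' l`
  have hcop : ∀ l : ℕ, Nat.Coprime (1 + p ^ j * n' * l) n := by
    intro l
    rw [hn]
    apply Nat.Coprime.mul_right
    · apply Nat.Coprime.pow_right
      rw [Nat.coprime_comm, hp.coprime_iff_not_dvd]
      intro hd
      have h1 : p ∣ p ^ j * n' * l := by
        rw [mul_assoc]
        exact Dvd.dvd.mul_right (dvd_pow_self p hj.ne') _
      have h2 : p ∣ 1 := (Nat.dvd_add_left h1).1 hd
      exact hp.one_lt.ne' (Nat.dvd_one.1 h2)
    · have h1 : 1 + p ^ j * n' * l = 1 + (p ^ j * l) * n' := by ring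
      rw [h1, Nat.coprime_add_mul_right_left]
      exact Nat.coprime_one_left _
  have key : ∀ l ∈ range n, ∑ i ∈ T, saw n ((t : ZMod n) * a i + (l : ZMod n) *
      (((p ^ j * n' : ℕ) : ZMod n) * ((t : ZMod n) * a i))) =
        ∑ i ∈ T, saw n ((t : ZMod n) * a i) := by
    intro l _
    rw [← GAP_inv n (fun i => ((p ^ j * n' : ℕ) : ZMod n) * a i ≠ 0) a ha t
      (ZMod.unitOfCoprime _ (hcop l))]
    · apply sum_congr rfl
      intro i _
      congr 1
      rw [Units.val_mul, ZMod.coe_unitOfCoprime]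
      push_cast
      ring
    · intro i hi
      rw [not_not] at hi
      rw [ZMod.coe_unitOfCoprime]
      push_cast at hi ⊢
      linear_combination (l : ZMod n) * hi
  have hsum : (n : ℚ) * ∑ i ∈ T, saw n ((t : ZMod n) * a i) =
      ∑ i ∈ T, ∑ l ∈ range n, saw n ((t : ZMod n) * a i + (l : ZMod n) *
      (((p ^ j * n' : ℕ) : ZMod n) * ((t : ZMod n) * a i))) := by
    rw [sum_comm, sum_congr rfl key, sum_const, card_range, nsmul_eq_mul]
  have hord : ∀ i, addOrderOf (((p ^ j * n' : ℕ) : ZMod n) * ((t : ZMod n) * a i)) =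
      addOrderOf (((p ^ j * n' : ℕ) : ZMod n) * a i) := by
    intro i
    have h1 : ((p ^ j * n' : ℕ) : ZMod n) * ((t : ZMod n) * a i) =
        AddMonoidHom.mulLeft (t : ZMod n) (((p ^ j * n' : ℕ) : ZMod n) * a i) := by
      rw [AddMonoidHom.coe_mulLeft]; ring
    rw [h1]
    apply addOrderOf_injective
    intro y z hyz
    rw [AddMonoidHom.coe_mulLeft] at hyz
    exact (Units.mul_right_inj t).1 hyz
  have hbound : |(n : ℚ) * ∑ i ∈ T, saw n ((t : ZMod n) * a i)| ≤
      ∑ i ∈ T, (n : ℚ) * (1 / addOrderOf (((p ^ j * n' : ℕ) : ZMod n) * a i)) / 2 := by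
    rw [hsum]
    refine (abs_sum_le_sum_abs _ _).trans (sum_le_sum fun i _ => ?_)
    have hdv : addOrderOf (((p ^ j * n' : ℕ) : ZMod n) * ((t : ZMod n) * a i)) ∣ n := by
      have := addOrderOf_dvd_card (x := ((p ^ j * n' : ℕ) : ZMod n) * ((t : ZMod n) * a i))
      rwa [ZMod.card] at this
    have := GAP_abs n ((t : ZMod n) * a i) _ n hdv
    rw [hord i] at this
    refine this.trans (le_of_eq ?_)
    ring
  rw [← sum_div, ← mul_sum, abs_mul, abs_of_pos hnQ] at hbound
  have h3 : |∑ i ∈ T, saw n ((t : ZMod n) * a i)| ≤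
      (∑ i ∈ T, (1 : ℚ) / addOrderOf (((p ^ j * n' : ℕ) : ZMod n) * a i)) / 2 := by
    rw [mul_div_assoc] at hbound
    exact le_of_mul_le_mul_left hbound hnQ
  linarith

end Pool.Agent.helper34.EL
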